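import Mathlib
import Pool.Agent.LevyThin.Final
import Pool.Agent.LeX.SumF

/-!
# Sets of integers of positive lower density: good dyadic blocks, and the choice of one element `x`
in every good block such that the differences of the numbers `x (x + 1)` have few small divisors
-/

namespace Pool.Agent.ThinX

open Finset
open Pool.Agent.Lib.PrimePairs
open Pool.Agent.LevyThin (av exists_choice)

/-- the weight of a pair -/
noncomputable def wt (a b : ℕ) : ℝ := F (2 * (b * (b + 1) - a * (a + 1))) ^ 2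

lemma wt_nonneg (a b : ℕ) : 0 ≤ wt a b := sq_nonneg _

lemma wt_le {a b : ℕ} (h : a < b) :
    wt a b ≤ F 2 ^ 2 * (F (b - a) ^ 4 + F (b + a + 1) ^ 4) := by
  have h1 : b * (b + 1) - a * (a + 1) = (b - a) * (b + a + 1) := by
    obtain ⟨d, rfl⟩ : ∃ d, b = a + d := ⟨b - a, by omega⟩
    rw [Nat.add_sub_cancel_left, Nat.sub_eq_iff_eq_add (by nlinarith)]
    ring
  have hF0 : ∀ n, 0 ≤ F n := F_nonneg
  have h2 : F (2 * (b * (b + 1) - a * (a + 1))) ≤ F 2 * (F (b - a) * F (b + a + 1)) := by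
    rw [h1]
    exact (Pool.Agent.LeX.F_mul_le 2 _).trans
      (mul_le_mul_of_nonneg_left (Pool.Agent.LeX.F_mul_le _ _) (hF0 2))
  unfold wt
  set x := F (b - a) with hx
  set y := F (b + a + 1) with hy
  have hx0 : 0 ≤ x := hF0 _
  have hy0 : 0 ≤ y := hF0 _
  have h20 : 0 ≤ F 2 := hF0 2
  calc F (2 * (b * (b + 1) - a * (a + 1))) ^ 2 ≤ (F 2 * (x * y)) ^ 2 :=
        pow_le_pow_left₀ (hF0 _) h2 2
    _ = F 2 ^ 2 * (x ^ 2 * y ^ 2) := by ring
    _ ≤ F 2 ^ 2 * (x ^ 4 + y ^ 4) := by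
        have h3 : x ^ 2 * y ^ 2 ≤ x ^ 4 + y ^ 4 := by nlinarith [sq_nonneg (x ^ 2 - y ^ 2), sq_nonneg (x ^ 2), sq_nonneg (y ^ 2)]
        gcongr

/-- the dyadic block `(2^j, 2^(j+1)]` -/
def A (j : ℕ) : Finset ℕ := Ioc (2 ^ j) (2 ^ (j + 1))

lemma mem_A {j p : ℕ} : p ∈ A j ↔ (2 ^ j < p ∧ p ≤ 2 ^ (j + 1)) := by
  simp [A]

/-- the total weight of two blocks -/
lemma pair_energy : ∃ K : ℝ, 0 < K ∧ ∀ i j : ℕ, i < j →
    ∑ a ∈ A i, ∑ b ∈ A j, wt a b ≤ K * (2 ^ i * 2 ^ j) := by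
  refine ⟨6 * F 2 ^ 2 * W ^ 4 + 1, ?_, ?_⟩
  · have := W_nonneg
    positivity
  intro i j hij
  have hW := W_nonneg
  have h1 : ∀ a ∈ A i, ∑ b ∈ A j, wt a b ≤ 6 * F 2 ^ 2 * W ^ 4 * 2 ^ j := by
    intro a ha
    rw [mem_A] at ha
    have hle : 2 ^ (i + 1) ≤ 2 ^ j := Nat.pow_le_pow_right (by norm_num) hij
    have hab : ∀ b ∈ A j, a < b := by
      intro b hb
      rw [mem_A] at hb
      omega
    have h2 : ∑ b ∈ A j, F (b - a) ^ 4 ≤ W ^ 4 * 2 ^ (j + 1) := by
      have e1 : ∑ b ∈ A j, F (b - a) ^ 4 = ∑ d ∈ (A j).image (fun b => b - a), F d ^ 4 := by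
        rw [Finset.sum_image]
        intro b hb c hc hbc
        have := hab b hb
        have := hab c hc
        simp only at hbc
        omega
      rw [e1]
      have e2 : ∑ d ∈ (A j).image (fun b => b - a), F d ^ 4 ≤ ∑ d ∈ Icc 1 (2 ^ (j + 1)), F d ^ 4 := by
        apply Finset.sum_le_sum_of_subset_of_nonneg
        · intro d hd
          rw [Finset.mem_image] at hd
          obtain ⟨b, hb, rfl⟩ := hd
          have h3 := hab b hb
          rw [mem_A] at hb
          rw [Finset.mem_Icc]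
          omega
        · intro d _ _
          have := F_nonneg d
          positivity
      refine e2.trans ?_
      have := sum_F_pow_four_le (2 ^ (j + 1))
      push_cast at this
      exact this
    have h3 : ∑ b ∈ A j, F (b + a + 1) ^ 4 ≤ W ^ 4 * 2 ^ (j + 2) := by
      have e1 : ∑ b ∈ A j, F (b + a + 1) ^ 4 =
          ∑ d ∈ (A j).image (fun b => b + a + 1), F d ^ 4 := by
        rw [Finset.sum_image]
        intro b hb c hc hbc
        simp only at hbc
        omega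
      rw [e1]
      have e2 : ∑ d ∈ (A j).image (fun b => b + a + 1), F d ^ 4 ≤
          ∑ d ∈ Icc 1 (2 ^ (j + 2)), F d ^ 4 := by
        apply Finset.sum_le_sum_of_subset_of_nonneg
        · intro d hd
          rw [Finset.mem_image] at hd
          obtain ⟨b, hb, rfl⟩ := hd
          rw [mem_A] at hb
          rw [Finset.mem_Icc]
          have e3 : 2 ^ (j + 2) = 2 ^ (j + 1) + 2 ^ j + 2 ^ j := by ring
          have e4 : 1 ≤ 2 ^ j := Nat.one_le_two_pow
          omega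
        · intro d _ _
          have := F_nonneg d
          positivity
      refine e2.trans ?_
      have := sum_F_pow_four_le (2 ^ (j + 2))
      push_cast at this
      exact this
    have h20 : 0 ≤ F 2 := F_nonneg 2
    calc ∑ b ∈ A j, wt a b ≤ ∑ b ∈ A j, F 2 ^ 2 * (F (b - a) ^ 4 + F (b + a + 1) ^ 4) :=
          Finset.sum_le_sum fun b hb => wt_le (hab b hb)
      _ = F 2 ^ 2 * (∑ b ∈ A j, F (b - a) ^ 4 + ∑ b ∈ A j, F (b + a + 1) ^ 4) := by
          rw [← Finset.mul_sum, Finset.sum_add_distrib]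
      _ ≤ F 2 ^ 2 * (W ^ 4 * 2 ^ (j + 1) + W ^ 4 * 2 ^ (j + 2)) := by gcongr
      _ = 6 * F 2 ^ 2 * W ^ 4 * 2 ^ j := by ring
  refine (Finset.sum_le_sum h1).trans ?_
  rw [Finset.sum_const, nsmul_eq_mul]
  have h2 : ((A i).card : ℝ) = 2 ^ i := by
    have : (A i).card = 2 ^ i := by
      unfold A
      rw [Nat.card_Ioc, pow_succ]
      omega
    rw [this]
    push_cast
    rfl
  rw [h2]
  have h3 : (0 : ℝ) ≤ 2 ^ i * 2 ^ j := by positivity
  nlinarith

open Classical in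
/-- the part of `U` in the dyadic block `(2^j, 2^(j+1)]` -/
noncomputable def B (U : Set ℕ) (j : ℕ) : Finset ℕ := (A j).filter (· ∈ U)

open Classical in
lemma mem_B {U : Set ℕ} {j p : ℕ} : p ∈ B U j ↔ p ∈ A j ∧ p ∈ U := by
  unfold B
  rw [Finset.mem_filter]

lemma B_subset (U : Set ℕ) (j : ℕ) : B U j ⊆ A j := fun _ hp => (mem_B.mp hp).1

open Classical in
/-- the good indices -/
noncomputable def I (U : Set ℕ) (η : ℝ) (s : ℕ) : Finset ℕ :=
  (Ico (2 ^ s) (2 ^ (s + 1))).filter (fun n => η * 2 ^ n ≤ ((B U n).card : ℝ))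

lemma mem_I {U : Set ℕ} {η : ℝ} {s n : ℕ} : n ∈ I U η s ↔
    (2 ^ s ≤ n ∧ n < 2 ^ (s + 1)) ∧ η * 2 ^ n ≤ ((B U n).card : ℝ) := by
  simp [I]

/-- the counting function of a set -/
noncomputable def cnt (U : Set ℕ) (x : ℕ) : ℕ := (U ∩ Set.Iic x).ncard

lemma cnt_sub_le (U : Set ℕ) (i b : ℕ) :
    cnt U (2 ^ (i + b)) ≤ (2 ^ i + 1) + ∑ n ∈ Ico i (i + b), (B U n).card := by
  classical
  have hsub : (U ∩ Set.Iic (2 ^ (i + b))) ⊆
      ((range (2 ^ i + 1) ∪ (Ico i (i + b)).biUnion (fun n => B U n) :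
        Finset ℕ) : Set ℕ) := by
    rintro p ⟨hp, hpx⟩
    rw [Set.mem_Iic] at hpx
    rw [Finset.mem_coe, Finset.mem_union]
    by_cases hpi : p ≤ 2 ^ i
    · left
      rw [Finset.mem_range]
      omega
    · right
      push Not at hpi
      rw [Finset.mem_biUnion]
      -- the block of `p`
      have hp1 : p - 1 ≠ 0 := by
        have : 1 ≤ 2 ^ i := Nat.one_le_two_pow
        omega
      refine ⟨Nat.log 2 (p - 1), ?_, ?_⟩
      · rw [Finset.mem_Ico]
        constructor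
        · rw [Nat.le_log_iff_pow_le (by norm_num) hp1]
          omega
        · rw [Nat.log_lt_iff_lt_pow (by norm_num) hp1]
          omega
      · rw [mem_B, mem_A]
        have h1 : 2 ^ Nat.log 2 (p - 1) ≤ p - 1 := Nat.pow_log_le_self 2 hp1
        have h2 : p - 1 < 2 ^ (Nat.log 2 (p - 1) + 1) := Nat.lt_pow_succ_log_self (by norm_num) _
        exact ⟨⟨by omega, by omega⟩, hp⟩
  unfold cnt
  calc (U ∩ Set.Iic (2 ^ (i + b))).ncard ≤
      ((range (2 ^ i + 1) ∪ (Ico i (i + b)).biUnion (fun n => B U n) :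
        Finset ℕ) : Set ℕ).ncard := Set.ncard_le_ncard hsub (Finset.finite_toSet _)
    _ = (range (2 ^ i + 1) ∪ (Ico i (i + b)).biUnion (fun n => B U n)).card :=
        Set.ncard_coe_finset _
    _ ≤ (range (2 ^ i + 1)).card + ((Ico i (i + b)).biUnion (fun n => B U n)).card :=
        Finset.card_union_le _ _
    _ ≤ _ := by
        rw [Finset.card_range]
        exact Nat.add_le_add_left Finset.card_biUnion_le _

/-- many good indices in every scale -/
lemma many_good (U : Set ℕ)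
    (hd : ∃ δ : ℝ, 0 < δ ∧ ∃ x0 : ℕ, ∀ x ≥ x0, δ * x ≤ (cnt U x : ℝ)) :
    ∃ η : ℝ, 0 < η ∧ ∃ γ : ℝ, 0 < γ ∧ ∃ s0 : ℕ, ∀ s ≥ s0,
      γ * 2 ^ s ≤ ((I U η s).card : ℝ) := by
  obtain ⟨δ, hδ, x0, hx0⟩ := hd
  obtain ⟨b, hb⟩ : ∃ b : ℕ, 4 / δ ≤ (2 : ℝ) ^ b := by
    obtain ⟨b, hb⟩ := pow_unbounded_of_one_lt (4 / δ) (show (1 : ℝ) < 2 by norm_num)
    exact ⟨b, hb.le⟩
  have hb4 : 4 ≤ δ * 2 ^ b := by
    rw [div_le_iff₀ hδ] at hb
    linarith
  have hlt : ∀ k : ℕ, k ≤ 2 ^ k := fun k => (Nat.lt_two_pow_self).le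
  set b' := b + 1 with hb'
  set η : ℝ := 1 / (2 ^ b' * b') with hη
  have hb'pos : (0 : ℝ) < b' := by exact_mod_cast (by omega : 0 < b')
  have hη0 : 0 < η := by positivity
  -- a good index in every window
  have hwin : ∀ i : ℕ, x0 + b' + 1 ≤ i → ∃ n, i ≤ n ∧ n < i + b' ∧
      η * 2 ^ n ≤ ((B U n).card : ℝ) := by
    intro i hi
    by_contra hcon
    push Not at hcon
    have h1 := hx0 (2 ^ (i + b')) (by
      have := hlt (i + b')
      omega)
    have h3 := cnt_sub_le U i b'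
    have h3' : (cnt U (2 ^ (i + b')) : ℝ) ≤ ((2 : ℝ) ^ i + 1) +
        ∑ n ∈ Ico i (i + b'), ((B U n).card : ℝ) := by exact_mod_cast h3
    have h4 : ∑ n ∈ Ico i (i + b'), ((B U n).card : ℝ) ≤
        ∑ n ∈ Ico i (i + b'), (2 : ℝ) ^ i / b' := by
      apply Finset.sum_le_sum
      intro n hn
      rw [Finset.mem_Ico] at hn
      have h5 := (hcon n hn.1 hn.2).le
      refine h5.trans ?_
      have h6 : (2 : ℝ) ^ n ≤ 2 ^ i * 2 ^ b' := by
        rw [← pow_add]
        exact pow_le_pow_right₀ (by norm_num) (by omega)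
      rw [hη]
      calc 1 / (2 ^ b' * (b' : ℝ)) * 2 ^ n ≤ 1 / (2 ^ b' * (b' : ℝ)) * (2 ^ i * 2 ^ b') := by
            gcongr
        _ = _ := by field_simp
    rw [Finset.sum_const, Nat.card_Ico, nsmul_eq_mul, Nat.add_sub_cancel_left] at h4
    have h8 : (b' : ℝ) * ((2 : ℝ) ^ i / b') = 2 ^ i := by field_simp
    rw [h8] at h4
    push_cast at h1
    have h10 : 8 * (2 : ℝ) ^ i ≤ δ * 2 ^ (i + b') := by
      rw [hb', pow_add, pow_succ]
      have : (0 : ℝ) < 2 ^ i := by positivity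
      nlinarith
    have h11 : (1 : ℝ) ≤ 2 ^ i := one_le_pow₀ (by norm_num)
    linarith
  choose! w hw1 hw2 hw3 using hwin
  refine ⟨η, hη0, 1 / (2 * b'), by positivity, x0 + 2 * b' + 1, fun s hs => ?_⟩
  -- injection
  set m := 2 ^ s / b' with hm
  have hcard : m ≤ (I U η s).card := by
    have h1 : (range m).card ≤ (I U η s).card := by
      apply Finset.card_le_card_of_injOn (fun k => w (2 ^ s + k * b'))
      · intro k hk
        rw [Finset.mem_coe, Finset.mem_range] at hk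
        rw [Finset.mem_coe, mem_I]
        have h2 := hlt s
        have h3 := hw1 (2 ^ s + k * b') (by omega)
        have h4 := hw2 (2 ^ s + k * b') (by omega)
        have h5 := hw3 (2 ^ s + k * b') (by omega)
        have h6 : (k + 1) * b' ≤ m * b' := Nat.mul_le_mul_right _ hk
        have h7 : m * b' ≤ 2 ^ s := Nat.div_mul_le_self _ _
        have h8 : (k + 1) * b' = k * b' + b' := by ring
        have h9 : 2 ^ (s + 1) = 2 ^ s + 2 ^ s := by ring
        simp only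
        refine ⟨⟨by omega, by omega⟩, h5⟩
      · intro k hk l hl hkl
        rw [Finset.mem_coe, Finset.mem_range] at hk hl
        simp only at hkl
        have h2 := hlt s
        have h3 := hw1 (2 ^ s + k * b') (by omega)
        have h4 := hw2 (2 ^ s + k * b') (by omega)
        have h3' := hw1 (2 ^ s + l * b') (by omega)
        have h4' := hw2 (2 ^ s + l * b') (by omega)
        rcases lt_trichotomy k l with h | h | h
        · exfalso
          have h5 : (k + 1) * b' ≤ l * b' := Nat.mul_le_mul_right _ h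
          have h6 : (k + 1) * b' = k * b' + b' := by ring
          omega
        · exact h
        · exfalso
          have h5 : (l + 1) * b' ≤ k * b' := Nat.mul_le_mul_right _ h
          have h6 : (l + 1) * b' = l * b' + b' := by ring
          omega
    rwa [Finset.card_range] at h1
  have h1 : (2 : ℝ) ^ s ≤ (m : ℝ) * b' + b' := by
    have h2 : 2 ^ s < b' * (m + 1) := Nat.lt_mul_div_succ _ (by omega)
    have h3 : ((2 ^ s : ℕ) : ℝ) ≤ ((b' * (m + 1) : ℕ) : ℝ) := by exact_mod_cast h2.le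
    push_cast at h3
    linarith
  have h2 : 2 * (b' : ℝ) ≤ 2 ^ s := by
    have h3 := hlt s
    have h4 : 2 * b' ≤ 2 ^ s := by omega
    exact_mod_cast h4
  have h3 : (m : ℝ) ≤ ((I U η s).card : ℝ) := by exact_mod_cast hcard
  refine le_trans ?_ h3
  rw [div_mul_eq_mul_div, one_mul, div_le_iff₀ (by positivity)]
  nlinarith

/-- the choice inside one scale -/
lemma choice_scale (U : Set ℕ) (η : ℝ) (hη : 0 < η) : ∃ K : ℝ, 0 < K ∧ ∀ s : ℕ,
    ∃ f : ℕ → ℕ, (∀ j ∈ I U η s, f j ∈ B U j) ∧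
    ∑ j ∈ I U η s, ∑ i ∈ (I U η s).filter (· < j), wt (f i) (f j) ≤
      K * ((2 : ℝ) ^ s) ^ 2 := by
  obtain ⟨K1, hK1, hE⟩ := pair_energy
  refine ⟨K1 / η ^ 2, by positivity, fun s => ?_⟩
  set J := I U η s with hJ
  have hcard : ∀ j ∈ J, η * 2 ^ j ≤ ((B U j).card : ℝ) := fun j hj => (mem_I.mp hj).2
  have hjJ : ∀ j ∈ J, 2 ^ s ≤ j ∧ j < 2 ^ (s + 1) := fun j hj => (mem_I.mp hj).1
  have hcpos : ∀ j ∈ J, (0 : ℝ) < (B U j).card := fun j hj =>
    lt_of_lt_of_le (by positivity) (hcard j hj)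
  obtain ⟨f, hf, hf1⟩ := exists_choice (B U) (fun _ _ a b => wt a b) J (by
    intro j hj
    rw [← Finset.card_pos]
    exact_mod_cast hcpos j hj) (fun _ _ => 0)
  refine ⟨f, hf, ?_⟩
  have h0 : ∑ i ∈ J, av (B U i) (fun _ => 0) = 0 := by
    apply Finset.sum_eq_zero
    intro i _
    simp [av]
  simp only [Finset.sum_const_zero, zero_add] at hf1
  rw [h0, zero_add] at hf1
  refine hf1.trans ?_
  have h1 : ∀ j ∈ J, ∀ i ∈ J.filter (· < j),
      av (B U j) (fun b => av (B U i) (fun a => wt a b)) ≤ K1 / η ^ 2 := by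
    intro j hj i hi
    rw [Finset.mem_filter] at hi
    have hij := hi.2
    have h2 := hE i j hij
    have hci := hcard i hi.1
    have hcj := hcard j hj
    have hci0 := hcpos i hi.1
    have hcj0 := hcpos j hj
    have h2' : ∑ a ∈ B U i, ∑ b ∈ B U j, wt a b ≤ K1 * (2 ^ i * 2 ^ j) := by
      refine le_trans ?_ h2
      refine le_trans ?_ (Finset.sum_le_sum_of_subset_of_nonneg (B_subset U i)
        (fun a _ _ => Finset.sum_nonneg fun b _ => wt_nonneg a b))
      exact Finset.sum_le_sum fun a _ => Finset.sum_le_sum_of_subset_of_nonneg (B_subset U j)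
        (fun b _ _ => wt_nonneg a b)
    unfold av
    rw [← Finset.sum_div, div_div, Finset.sum_comm, div_le_iff₀ (by positivity)]
    refine h2'.trans ?_
    have h3 : η * (2 : ℝ) ^ i * (η * 2 ^ j) ≤ (B U i).card * (B U j).card := by
      gcongr
    calc K1 * (2 ^ i * 2 ^ j) = K1 / η ^ 2 * (η * (2 : ℝ) ^ i * (η * 2 ^ j)) := by
          field_simp
      _ ≤ K1 / η ^ 2 * ((B U i).card * (B U j).card) := by gcongr
  have h2 : ∑ j ∈ J, ∑ i ∈ J.filter (· < j),
      av (B U j) (fun b => av (B U i) (fun a => wt a b)) ≤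
      ∑ j ∈ J, ∑ i ∈ J, K1 / η ^ 2 := by
    apply Finset.sum_le_sum
    intro j hj
    refine (Finset.sum_le_sum (h1 j hj)).trans ?_
    exact Finset.sum_le_sum_of_subset_of_nonneg (Finset.filter_subset _ _)
      (fun _ _ _ => by positivity)
  refine h2.trans ?_
  have hJc : (J.card : ℝ) ≤ 2 ^ s := by
    have h3 : J.card ≤ (Ico (2 ^ s) (2 ^ (s + 1))).card := by
      apply Finset.card_le_card
      intro j hj
      rw [Finset.mem_Ico]
      exact hjJ j hj
    rw [Nat.card_Ico, pow_succ] at h3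
    have h4 : J.card ≤ 2 ^ s := by omega
    exact_mod_cast h4
  simp only [Finset.sum_const, nsmul_eq_mul]
  have h5 : (J.card : ℝ) * (J.card * (K1 / η ^ 2)) = K1 / η ^ 2 * (J.card : ℝ) ^ 2 := by ring
  rw [h5]
  gcongr

/-- the global choice -/
lemma global_choice (U : Set ℕ)
    (hd : ∃ δ : ℝ, 0 < δ ∧ ∃ x0 : ℕ, ∀ x ≥ x0, δ * x ≤ (cnt U x : ℝ)) :
    ∃ g : ℕ → ℕ, ∃ η : ℝ, 0 < η ∧ ∃ γ : ℝ, 0 < γ ∧ ∃ K : ℝ, 0 < K ∧ ∃ s0 : ℕ, 1 ≤ s0 ∧
    ∀ s ≥ s0, (∀ j ∈ I U η s, g j ∈ B U j) ∧ γ * 2 ^ s ≤ ((I U η s).card : ℝ) ∧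
      ∑ j ∈ I U η s, ∑ i ∈ (I U η s).filter (· < j), wt (g i) (g j) ≤
        K * ((2 : ℝ) ^ s) ^ 2 := by
  obtain ⟨η, hη, γ, hγ, s1, h1⟩ := many_good U hd
  obtain ⟨K, hK, h2⟩ := choice_scale U η hη
  choose f hf hf1 using h2
  refine ⟨fun j => f (Nat.log 2 j) j, η, hη, γ, hγ, K, hK, s1 + 1, by omega, fun s hs => ?_⟩
  have hlog : ∀ j ∈ I U η s, Nat.log 2 j = s := by
    intro j hj
    have := (mem_I.mp hj).1
    exact Nat.log_eq_of_pow_le_of_lt_pow this.1 this.2
  refine ⟨?_, h1 s (by omega), ?_⟩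
  · intro j hj
    simp only
    rw [hlog j hj]
    exact hf s j hj
  · refine le_trans (le_of_eq ?_) (hf1 s)
    apply Finset.sum_congr rfl
    intro j hj
    apply Finset.sum_congr rfl
    intro i hi
    simp only
    rw [hlog j hj, hlog i (Finset.mem_filter.mp hi).1]

end Pool.Agent.ThinX
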